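import Mathlib
import Pool.Agent.W743.GV.Stm

/-! Part GV-ID: the closedness identity. -/

open Set
open scoped ContDiff

namespace Pool.Agent.W657.GV

open Pool.Agent.W743.GV

theorem t_ID : S_ID := by
  intro d b f h s _ P hP
  have h1 := h.eA P hP
  have h2 := h.eB P hP
  unfold MS MP QP MM QQ
  linear_combination (s * (s - b P)) * h1 + s * h2

end Pool.Agent.W657.GV
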